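import Mathlib
import Pool.Agent.helper60.POS.Defs

set_option autoImplicit false

/-!
# Module A: the finite support iteration poset
-/

open Cardinal Order

namespace Pool.Agent.helper60.POS

open Pool.Agent.helper60.FcU

section A

/-- A weak form of the delta system lemma. -/
lemma exists_agree {X ι V : Type} [Countable V] (v : X → ι → V) :
    ∀ (n : ℕ) (A : Set X) (S : X → Finset ι), ¬ A.Countable → (∀ a ∈ A, (S a).card = n) →
      ∃ a ∈ A, ∃ b ∈ A, a ≠ b ∧ ∀ j ∈ S a, j ∈ S b → v a j = v b j := by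
  classical
  intro n
  induction n with
  | zero =>
    intro A S hA hS
    have h1 : A.Nontrivial := by
      by_contra h
      exact hA (Set.not_nontrivial_iff.1 h).countable
    obtain ⟨a, ha, b, hb, hab⟩ := h1
    refine ⟨a, ha, b, hb, hab, fun j hj => ?_⟩
    rw [Finset.card_eq_zero.1 (hS a ha)] at hj
    exact absurd hj (Finset.notMem_empty j)
  | succ n ih =>
    intro A S hA hS
    by_cases h : ∃ j w, ¬ {a ∈ A | j ∈ S a ∧ v a j = w}.Countable
    · obtain ⟨j, w, hjw⟩ := h
      obtain ⟨a, ha, b, hb, hab, hag⟩ := ih _ (fun a => (S a).erase j) hjw (by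
        rintro a ⟨ha, hj, -⟩
        rw [Finset.card_erase_of_mem hj, hS a ha]
        rfl)
      refine ⟨a, ha.1, b, hb.1, hab, fun k hk hk' => ?_⟩
      by_cases hkj : k = j
      · subst hkj
        rw [ha.2.2, hb.2.2]
      · exact hag k (Finset.mem_erase.2 ⟨hkj, hk⟩) (Finset.mem_erase.2 ⟨hkj, hk'⟩)
    · push Not at h
      have hne : A.Nonempty := by
        by_contra h0
        rw [Set.not_nonempty_iff_eq_empty] at h0
        rw [h0] at hA
        exact hA Set.countable_empty
      obtain ⟨a, ha⟩ := hne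
      have hc : (⋃ j ∈ S a, ⋃ w, {b ∈ A | j ∈ S b ∧ v b j = w}).Countable :=
        Set.Countable.biUnion (S a).countable_toSet fun j _ => Set.countable_iUnion fun w => h j w
      have h2 : ∃ b ∈ A, b ∉ (⋃ j ∈ S a, ⋃ w, {b ∈ A | j ∈ S b ∧ v b j = w}) := by
        by_contra h3
        push Not at h3
        exact hA (hc.mono h3)
      obtain ⟨b, hb, hb'⟩ := h2
      simp only [Set.mem_iUnion, Set.mem_setOf_eq, not_exists, not_and] at hb'
      refine ⟨a, ha, b, hb, ?_, fun j hj hj' => absurd rfl (hb' j hj _ hb hj')⟩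
      rintro rfl
      have h4 : 0 < (S a).card := by rw [hS a ha]; omega
      obtain ⟨j, hj⟩ := Finset.card_pos.1 h4
      exact hb' j hj _ ha hj rfl

variable {ι Ω : Type} [LinearOrder ι] [WellFoundedLT ι] {D : ι → Ω → ℕ → Set (Cnd ι Ω)}

/-- The relation at `j` depends only on the coordinates up to `j`. -/
lemma coord_congr (D : ι → Ω → ℕ → Set (Cnd ι Ω)) (j : ι) : ∀ p p' q q' : Cnd ι Ω,
    (∀ k ≤ j, p.s k = p'.s k ∧ p.F k = p'.F k) → (∀ k ≤ j, q.s k = q'.s k ∧ q.F k = q'.F k) →
      (Coord D j p q ↔ Coord D j p' q') := by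
  induction j using WellFoundedLT.induction with
  | ind j ih =>
    have key : ∀ p p' q q' : Cnd ι Ω,
        (∀ k ≤ j, p.s k = p'.s k ∧ p.F k = p'.F k) →
        (∀ k ≤ j, q.s k = q'.s k ∧ q.F k = q'.F k) → Coord D j p q → Coord D j p' q' := by
      intro p p' q q' hp hq h
      rw [coord_iff] at h ⊢
      rw [← (hp j le_rfl).1, ← (hp j le_rfl).2, ← (hq j le_rfl).1, ← (hq j le_rfl).2]
      refine ⟨h.1, h.2.1, fun n hn hn' a ha r hr => ?_⟩
      exact h.2.2 n hn hn' a ha r fun k hk =>
        (ih k hk r r p p' (fun l _ => ⟨rfl, rfl⟩) (fun l hl => hp l (hl.trans hk.le))).2 (hr k hk)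
    intro p p' q q' hp hq
    exact ⟨key p p' q q' hp hq, key p' p q' q (fun k hk => ⟨(hp k hk).1.symm, (hp k hk).2.symm⟩)
      (fun k hk => ⟨(hq k hk).1.symm, (hq k hk).2.symm⟩)⟩

/-- `q` below `i`, and `p` from `i` on. -/
def amal (i : ι) (q p : Cnd ι Ω) : Cnd ι Ω where
  s j := if j < i then q.s j else p.s j
  F j := if j < i then q.F j else p.F j
  fin := by
    refine (q.fin.union p.fin).subset fun j hj => ?_
    simp only [Set.mem_setOf_eq] at hj
    simp only [Set.mem_union, Set.mem_setOf_eq]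
    by_cases h : j < i
    · simp only [h, if_true] at hj
      exact Or.inl hj
    · simp only [h, if_false] at hj
      exact Or.inr hj

lemma amal_lt {i j : ι} (h : j < i) (q p : Cnd ι Ω) :
    (amal i q p).s j = q.s j ∧ (amal i q p).F j = q.F j := by
  simp [amal, h]

lemma amal_ge {i j : ι} (h : i ≤ j) (q p : Cnd ι Ω) :
    (amal i q p).s j = p.s j ∧ (amal i q p).F j = p.F j := by
  simp [amal, not_lt.2 h]

lemma coord_of_eq (j : ι) {p q : Cnd ι Ω} (hs : p.s j = q.s j) (hF : q.F j ⊆ p.F j) :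
    Coord D j p q := by
  rw [coord_iff, hs]
  exact ⟨Finset.Subset.refl _, hF, fun n hn hn' => absurd hn hn'⟩

lemma coord_of_empty (j : ι) {p q : Cnd ι Ω} (hs : q.s j = ∅) (hF : q.F j = ∅) :
    Coord D j p q := by
  rw [coord_iff, hs, hF]
  exact ⟨Finset.empty_subset _, Finset.empty_subset _,
    fun n _ _ a ha => absurd ha (Finset.notMem_empty a)⟩

lemma amal_le (i : ι) {q p : Cnd ι Ω} (h : ∀ k < i, Coord D k q p) (j : ι) :
    Coord D j (amal i q p) p := by
  rcases lt_or_ge j i with hj | hj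
  · exact (coord_congr D j _ _ _ _ (fun k hk => amal_lt (hk.trans_lt hj) q p)
      (fun k _ => ⟨rfl, rfl⟩)).2 (h j hj)
  · obtain ⟨h1, h2⟩ := amal_ge hj q p
    exact coord_of_eq j h1 (by rw [h2])

theorem Pos.s_mono {p p' : Pos D} (h : p' ≤ p) (i : ι) : p.raw.s i ⊆ p'.raw.s i :=
  ((coord_iff D i _ _).1 (h i)).1

theorem Pos.F_mono {p p' : Pos D} (h : p' ≤ p) (i : ι) : p.raw.F i ⊆ p'.raw.F i :=
  ((coord_iff D i _ _).1 (h i)).2.1

theorem Pos.ccc (D : ι → Ω → ℕ → Set (Cnd ι Ω)) : CCC (Pos D) := by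
  classical
  intro A hA
  by_contra hunc
  -- the supports
  let S : Pos D → Finset ι := fun p => (p.raw.fin).toFinset
  have hSmem : ∀ (p : Pos D) (j : ι), j ∈ S p ↔ (p.raw.s j ≠ ∅ ∨ p.raw.F j ≠ ∅) := by
    intro p j
    simp [S]
  have h1 : ∃ n : ℕ, ¬ {p ∈ A | (S p).card = n}.Countable := by
    by_contra h2
    push Not at h2
    refine hunc ((Set.countable_iUnion h2).mono fun p hp => ?_)
    rw [Set.mem_iUnion]
    exact ⟨(S p).card, hp, rfl⟩
  obtain ⟨n, hn⟩ := h1
  obtain ⟨p, hp, q, hq, hpq, hag⟩ := exists_agree (fun (p : Pos D) j => p.raw.s j) n _ S hn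
    (fun p hp => hp.2)
  refine hA p hp.1 q hq.1 hpq ?_
  let r : Cnd ι Ω :=
    { s := fun j => p.raw.s j ∪ q.raw.s j
      F := fun j => p.raw.F j ∪ q.raw.F j
      fin := by
        refine (p.raw.fin.union q.raw.fin).subset fun j hj => ?_
        simp only [Set.mem_setOf_eq, ne_eq, Finset.union_eq_empty, not_and_or] at hj
        simp only [Set.mem_union, Set.mem_setOf_eq, ne_eq]
        tauto }
  refine ⟨Pos.of D r, fun j => ?_, fun j => ?_⟩
  · by_cases hj : j ∈ S p
    · have hs : r.s j = p.raw.s j := by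
        show p.raw.s j ∪ q.raw.s j = p.raw.s j
        by_cases hj' : j ∈ S q
        · rw [← hag j hj hj', Finset.union_idempotent]
        · rw [hSmem] at hj'
          push Not at hj'
          rw [hj'.1, Finset.union_empty]
      exact coord_of_eq j hs Finset.subset_union_left
    · rw [hSmem] at hj
      push Not at hj
      exact coord_of_empty j hj.1 hj.2
  · by_cases hj : j ∈ S q
    · have hs : r.s j = q.raw.s j := by
        show p.raw.s j ∪ q.raw.s j = q.raw.s j
        by_cases hj' : j ∈ S p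
        · rw [← hag j hj' hj, Finset.union_idempotent]
        · rw [hSmem] at hj'
          push Not at hj'
          rw [hj'.1, Finset.empty_union]
      exact coord_of_eq j hs Finset.subset_union_right
    · rw [hSmem] at hj
      push Not at hj
      exact coord_of_empty j hj.1 hj.2

theorem Pos.force {p p' : Pos D} {i : ι} {a : Ω} {n : ℕ} (h : p' ≤ p) (ha : a ∈ p.raw.F i)
    (hn : n ∉ p.raw.s i) (hn' : n ∈ p'.raw.s i) :
    ∀ q ≤ p', ∃ q' ≤ q, ∃ d ∈ D i a n, Below i d ∧ q' ≤ Pos.of D d := by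
  intro q hq
  obtain ⟨r, hr1, d, hd, hb, hr2⟩ := ((coord_iff D i _ _).1 (h i)).2.2 n hn' hn a ha q
    (fun k _ => hq k)
  refine ⟨amal i r q, amal_le i hr1, d, hd, hb, fun j => ?_⟩
  rcases lt_or_ge j i with hj | hj
  · exact (coord_congr D j _ _ _ _ (fun k hk => amal_lt (hk.trans_lt hj) r q)
      (fun k _ => ⟨rfl, rfl⟩)).2 (hr2 j hj)
  · exact coord_of_empty j (hb j hj).1 (hb j hj).2

theorem Pos.add_num {p p₁ : Pos D} (h : p₁ ≤ p) {i : ι} {n : ℕ}
    (H : ∀ a ∈ p.raw.F i, ∀ q ≤ p₁, ∃ q' ≤ q, ∃ d ∈ D i a n, Below i d ∧ q' ≤ Pos.of D d) :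
    ∃ p' ≤ p, n ∈ p'.raw.s i := by
  classical
  -- the condition `p` with `n` added at `i`
  let pn : Cnd ι Ω :=
    { s := fun j => if j = i then insert n (p.raw.s j) else p.raw.s j
      F := p.raw.F
      fin := by
        refine (p.raw.fin.union (Set.finite_singleton i)).subset fun j hj => ?_
        simp only [Set.mem_setOf_eq] at hj
        simp only [Set.mem_union, Set.mem_setOf_eq, Set.mem_singleton_iff]
        by_cases hji : j = i
        · exact Or.inr hji
        · simp only [hji, if_false] at hj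
          exact Or.inl hj }
  let p' : Cnd ι Ω := amal i p₁.raw pn
  have hs : p'.s i = insert n (p.raw.s i) := by
    rw [(amal_ge le_rfl p₁.raw pn).1]
    simp [pn]
  refine ⟨Pos.of D p', fun j => ?_, ?_⟩
  · rcases lt_trichotomy j i with hj | hj | hj
    · exact (coord_congr D j _ _ _ _ (fun k hk => amal_lt (hk.trans_lt hj) p₁.raw pn)
        (fun k _ => ⟨rfl, rfl⟩)).2 (h j)
    · subst hj
      rw [coord_iff]
      refine ⟨?_, ?_, ?_⟩
      · show p.raw.s j ⊆ p'.s j
        rw [hs]
        exact Finset.subset_insert _ _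
      · show p.raw.F j ⊆ p'.F j
        rw [(amal_ge le_rfl p₁.raw pn).2]
      · intro m hm hm' a ha r hr
        have hmn : m = n := by
          have h1 : m ∈ insert n (p.raw.s j) := by
            rw [← hs]; exact hm
          rcases Finset.mem_insert.1 h1 with h2 | h2
          · exact h2
          · exact absurd h2 hm'
        subst hmn
        have hr' : ∀ k < j, Coord D k r p₁.raw := fun k hk =>
          (coord_congr D k _ _ _ _ (fun l _ => ⟨rfl, rfl⟩)
            (fun l hl => amal_lt (hl.trans_lt hk) p₁.raw pn)).1 (hr k hk)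
        obtain ⟨q', hq', d, hd, hb, hq'd⟩ := H a ha (Pos.of D (amal j r p₁.raw))
          (amal_le j hr')
        refine ⟨q', fun k hk => ?_, d, hd, hb, fun k _ => hq'd k⟩
        exact (coord_congr D k _ _ _ _ (fun l _ => ⟨rfl, rfl⟩)
          (fun l hl => amal_lt (hl.trans_lt hk) r p₁.raw)).1 (hq' k)
    · obtain ⟨h1, h2⟩ := amal_ge hj.le p₁.raw pn
      refine coord_of_eq j ?_ ?_
      · show p'.s j = p.raw.s j
        rw [h1]
        simp [pn, hj.ne']
      · show p.raw.F j ⊆ p'.F j
        rw [h2]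
  · show n ∈ p'.s i
    rw [hs]
    exact Finset.mem_insert_self _ _

theorem Pos.add_idx (p : Pos D) (i : ι) (a : Ω) :
    ∃ p' ≤ p, a ∈ p'.raw.F i ∧ p'.raw.s i = p.raw.s i := by
  classical
  let p' : Cnd ι Ω :=
    { s := p.raw.s
      F := fun j => if j = i then insert a (p.raw.F j) else p.raw.F j
      fin := by
        refine (p.raw.fin.union (Set.finite_singleton i)).subset fun j hj => ?_
        simp only [Set.mem_setOf_eq] at hj
        simp only [Set.mem_union, Set.mem_setOf_eq, Set.mem_singleton_iff]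
        by_cases hji : j = i
        · exact Or.inr hji
        · simp only [hji, if_false] at hj
          exact Or.inl hj }
  refine ⟨Pos.of D p', fun j => coord_of_eq j rfl ?_, ?_, rfl⟩
  · show p.raw.F j ⊆ p'.F j
    by_cases hji : j = i
    · simp only [p', hji, if_true]
      exact Finset.subset_insert _ _
    · simp only [p', hji, if_false]
      exact Finset.Subset.refl _
  · show a ∈ p'.F i
    simp [p']

end A

end Pool.Agent.helper60.POS
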