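import Mathlib
import Pool.Agent.helper60.POS.Defs

set_option autoImplicit false

/-!
# Module G2: bounded sets
-/

open Cardinal Order

namespace Pool.Agent.helper60.POS

/-- Module G2. -/
theorem exists_bounded {κ : Cardinal.{0}} (hκ : ℵ₀ < κ) (hstrong : ∀ μ < κ, 2 ^ μ < κ)
    (kj : ℕ → Cardinal.{0}) (hkj : ∀ j, kj j < κ) (hkj' : ∀ μ < κ, ∃ j, μ ≤ kj j)
    (hkjm : StrictMono kj) (hkj0 : ℵ₀ ≤ kj 0) :
    ∃ 𝒴 : Set (Set κ.ord.ToType), #𝒴 ≤ κ ∧ (∀ Y ∈ 𝒴, #Y < κ) ∧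
      ∀ (T : Set κ.ord.ToType) (j : ℕ), kj (j + 1) ≤ #T → ∃ Y ∈ 𝒴, Y ⊆ T ∧ kj j ≤ #Y := by
  have hIio : ∀ γ : κ.ord.ToType, #(Set.Iio γ) < κ := fun γ => Cardinal.mk_Iio_ord_toType γ
  refine ⟨⋃ γ : κ.ord.ToType, 𝒫 (Set.Iio γ), ?_, ?_, ?_⟩
  · calc #(⋃ γ : κ.ord.ToType, 𝒫 (Set.Iio γ))
        ≤ Cardinal.sum fun γ : κ.ord.ToType => #(𝒫 (Set.Iio γ)) := mk_iUnion_le_sum_mk
      _ ≤ Cardinal.sum fun _ : κ.ord.ToType => κ := by
        refine Cardinal.sum_le_sum _ _ fun γ => ?_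
        rw [Cardinal.mk_powerset]
        exact (hstrong _ (hIio γ)).le
      _ = κ := by
        rw [Cardinal.sum_const', Cardinal.mk_ord_toType]
        exact Cardinal.mul_eq_self hκ.le
  · intro Y hY
    obtain ⟨γ, hγ⟩ := Set.mem_iUnion.1 hY
    exact (Cardinal.mk_le_mk_of_subset hγ).trans_lt (hIio γ)
  · intro T j hT
    let γ : ℕ → κ.ord.ToType := fun m =>
      Ordinal.ToType.mk ⟨(kj m).ord, Cardinal.ord_lt_ord.2 (hkj m)⟩
    have hcov : T ⊆ ⋃ m, T ∩ Set.Iio (γ m) := by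
      intro x hx
      obtain ⟨⟨o, ho⟩, rfl⟩ := Ordinal.ToType.mk.surjective x
      have ho' : o.card < κ := Cardinal.lt_ord.1 ho
      obtain ⟨m, hm⟩ := hkj' _ ho'
      rw [Set.mem_iUnion]
      refine ⟨m + 1, hx, ?_⟩
      show Ordinal.ToType.mk _ < Ordinal.ToType.mk _
      rw [OrderIso.lt_iff_lt]
      show o < (kj (m + 1)).ord
      exact Cardinal.lt_ord.2 (hm.trans_lt (hkjm (Nat.lt_succ_self m)))
    by_contra hcon
    push Not at hcon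
    have hsmall : ∀ m, #(↥(T ∩ Set.Iio (γ m))) ≤ kj j := fun m =>
      (hcon _ (Set.mem_iUnion.2 ⟨γ m, Set.inter_subset_right⟩) Set.inter_subset_left).le
    have h1 : #T ≤ kj j := by
      calc #T ≤ #(⋃ m, T ∩ Set.Iio (γ m)) := Cardinal.mk_le_mk_of_subset hcov
        _ ≤ Cardinal.sum fun m : ℕ => #(↥(T ∩ Set.Iio (γ m))) := mk_iUnion_le_sum_mk
        _ ≤ Cardinal.sum fun _ : ℕ => kj j := Cardinal.sum_le_sum _ _ hsmall
        _ = kj j := by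
          rw [Cardinal.sum_const', Cardinal.mk_nat]
          exact Cardinal.mul_eq_right (hkj0.trans (hkjm.monotone (Nat.zero_le j)))
            (hkj0.trans (hkjm.monotone (Nat.zero_le j))) Cardinal.aleph0_ne_zero
    exact absurd (hT.trans h1) (not_le.2 (hkjm (Nat.lt_succ_self j)))

end Pool.Agent.helper60.POS
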